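import Mathlib

/-!
# Under CH, `S₁(Ω, 𝒪^{ωgp})` does not imply `S₁(Ω, Ω)`

Assuming the continuum hypothesis there is a set of reals `X` which satisfies
`S₁(Ω, 𝒪^{ωgp})` but not `S₁(Ω, Ω)`.

`X` consists of the rationals and of points `x α`, `z α - x α` (`α < ω₁`), where `z` runs through
the compact interval `[0,1]` and `x α` is chosen by transfinite recursion outside countably many
meagre sets.
-/

open Set MeasureTheory
open scoped Cardinal Pointwise

namespace Pool.Agent.Results.MP_82c070_gt.OmegaGroupableCH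

section Defs

variable (X : Type) [TopologicalSpace X]

/-- `𝒪`: the open covers of the space `X`. -/
def OpenCovers : Set (Set (Set X)) :=
  {𝒰 | (∀ U ∈ 𝒰, IsOpen U) ∧ ⋃₀ 𝒰 = univ}

/-- `Ω`: the open `ω`-covers of the space `X`. -/
def OmegaCovers : Set (Set (Set X)) :=
  {𝒰 | 𝒰 ∈ OpenCovers X ∧ univ ∉ 𝒰 ∧ ∀ F : Set X, F.Finite → ∃ U ∈ 𝒰, F ⊆ U}

/-- `𝒪^{ωgp}`: the `ω`-groupable open covers of the space `X`. -/
def OmegaGroupable : Set (Set (Set X)) :=
  {𝒰 | 𝒰 ∈ OpenCovers X ∧ ∃ 𝓕 : ℕ → Set (Set X), (∀ n, (𝓕 n).Finite) ∧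
    (∀ m n, m ≠ n → Disjoint (𝓕 m) (𝓕 n)) ∧ ⋃ n, 𝓕 n = 𝒰 ∧
    ∀ F : Set X, F.Finite → ∃ n, F ⊆ ⋃₀ 𝓕 n}

/-- `S₁(𝔄, 𝔅)`. -/
def S1 (𝔄 𝔅 : Set (Set (Set X))) : Prop :=
  ∀ 𝒰 : ℕ → Set (Set X), (∀ n, 𝒰 n ∈ 𝔄) →
    ∃ U : ℕ → Set X, (∀ n, U n ∈ 𝒰 n) ∧ range U ∈ 𝔅

end Defs

/-! ### The index set -/

lemma exists_index (hCH : (ℵ₁ : Cardinal.{0}) = 𝔠) : ∃ (W : Type) (_ : LinearOrder W) (_ : WellFoundedLT W)
    (z : W → ℝ) (c : W → Set (ℕ × ℚ × ℚ)),
    (∀ x : W, (Iio x).Countable) ∧ (∀ a, z a ∈ Icc (0 : ℝ) 1) ∧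
    (∀ r ∈ Icc (0 : ℝ) 1, ∃ a, z a = r) ∧ Function.Surjective c := by
  have hcard : #((ℵ₁ : Cardinal.{0}).ord.ToType) = 𝔠 := by
    rw [Cardinal.mk_ord_toType, hCH]
  have h1 : #(Icc (0 : ℝ) 1) = #((ℵ₁ : Cardinal.{0}).ord.ToType) := by
    rw [hcard, Cardinal.mk_Icc_real zero_lt_one]
  have h2 : #(Set (ℕ × ℚ × ℚ)) = #((ℵ₁ : Cardinal.{0}).ord.ToType) := by
    rw [hcard, Cardinal.mk_set, Cardinal.mk_eq_aleph0 (ℕ × ℚ × ℚ), Cardinal.two_power_aleph0]
  obtain ⟨e1⟩ := Cardinal.eq.1 h1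
  obtain ⟨e2⟩ := Cardinal.eq.1 h2
  refine ⟨(ℵ₁ : Cardinal.{0}).ord.ToType, inferInstance, inferInstance,
    fun a => (e1.symm a : ℝ), fun a => e2.symm a, ?_, ?_, ?_, e2.symm.surjective⟩
  · intro x
    rw [← Cardinal.le_aleph0_iff_set_countable]
    have : #(Iio x) < #((ℵ₁ : Cardinal.{0}).ord.ToType) := Cardinal.mk_Iio_lt x (by simp)
    rw [Cardinal.mk_ord_toType] at this
    exact Cardinal.lt_aleph_one_iff.mp this
  · exact fun a => (e1.symm a).2
  · exact fun r hr => ⟨e1 ⟨r, hr⟩, by simp⟩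

/-! ### Coded sequences of open sets -/

/-- the `k`-th open set of the sequence coded by `c` -/
def C (c : Set (ℕ × ℚ × ℚ)) (k : ℕ) : Set ℝ :=
  ⋃ p ∈ {p : ℚ × ℚ | (k, p) ∈ c}, Ioo (p.1 : ℝ) p.2

lemma isOpen_C (c : Set (ℕ × ℚ × ℚ)) (k : ℕ) : IsOpen (C c k) :=
  isOpen_biUnion fun _ _ => isOpen_Ioo

/-- every sequence of open sets has a code -/
lemma exists_code (O : ℕ → Set ℝ) (hO : ∀ k, IsOpen (O k)) : ∃ c, ∀ k, C c k = O k := by
  refine ⟨{p | Ioo (p.2.1 : ℝ) p.2.2 ⊆ O p.1}, fun k => ?_⟩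
  apply Subset.antisymm
  · intro y hy
    simp only [C, mem_iUnion, mem_ofPred_eq] at hy
    obtain ⟨p, hp, hy⟩ := hy
    exact hp hy
  · intro y hy
    obtain ⟨ε, hε, hb⟩ := Metric.isOpen_iff.1 (hO k) y hy
    obtain ⟨p, hp1, hp2⟩ := exists_rat_btwn (show y - ε < y by linarith)
    obtain ⟨q, hq1, hq2⟩ := exists_rat_btwn (show y < y + ε by linarith)
    simp only [C, mem_iUnion, mem_ofPred_eq]
    refine ⟨(p, q), ?_, hp2, hq1⟩
    intro w hw
    apply hb
    rw [Metric.mem_ball, Real.dist_eq, abs_lt]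
    constructor
    · have := hw.1; linarith
    · have := hw.2; linarith

/-- the property of a code that makes generic points hit it -/
def Good (c : Set (ℕ × ℚ × ℚ)) : Prop :=
  ∀ p q : ℚ, p < q → ∃ K, ∀ k ≥ K, ∀ z ∈ Icc (0 : ℝ) 1,
    ∃ y ∈ Ioo (p : ℝ) q, y ∈ C c k ∧ z - y ∈ C c k

section Recursion

variable {W : Type} [LinearOrder W] (z : W → ℝ) (c : W → Set (ℕ × ℚ × ℚ))

/-- the indices `k` at which the `k`-th set coded by `β` contains all `g γ`, `z γ - g γ` -/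
def A (β : W) (G : Finset W) (g : W → ℝ) : Set ℕ :=
  {k | ∀ γ ∈ G, g γ ∈ C (c β) k ∧ z γ - g γ ∈ C (c β) k}

/-- the requirement on the point chosen at stage `α` -/
def Q (α : W) (g : W → ℝ) (y : ℝ) : Prop :=
  ∀ β < α, ∀ G : Finset W, (∀ γ ∈ G, γ < α) → Good (c β) → (A z c β G g).Infinite →
    ∀ N, ∃ k ≥ N, k ∈ A z c β G g ∧ y ∈ C (c β) k ∧ z α - y ∈ C (c β) k

lemma exists_Q (hc : ∀ x : W, (Iio x).Countable) (hz : ∀ a, z a ∈ Icc (0 : ℝ) 1)
    (α : W) (g : W → ℝ) : ∃ y, Q z c α g y := by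
  have : Countable (Iio α) := (hc α).to_subtype
  let f : (Iio α × Finset (Iio α)) × ℕ → Set ℝ := fun i =>
    {y | Good (c i.1.1) → (A z c i.1.1 (i.1.2.map (Function.Embedding.subtype _)) g).Infinite →
      ∃ k ≥ i.2, k ∈ A z c i.1.1 (i.1.2.map (Function.Embedding.subtype _)) g ∧
        y ∈ C (c i.1.1) k ∧ z α - y ∈ C (c i.1.1) k}
  have hd : Dense (⋂ i, f i) := by
    apply dense_iInter_of_isOpen
    · rintro ⟨⟨β, G⟩, N⟩
      by_cases h1 : Good (c β)
      · by_cases h2 : (A z c β (G.map (Function.Embedding.subtype _)) g).Infinite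
        · have : f ⟨⟨β, G⟩, N⟩ = ⋃ k ∈ {k | k ≥ N ∧
              k ∈ A z c β (G.map (Function.Embedding.subtype _)) g},
              (C (c β) k ∩ (fun y => z α - y) ⁻¹' C (c β) k) := by
            ext y
            simp only [f, mem_ofPred_eq, mem_iUnion, mem_inter_iff, mem_preimage]
            constructor
            · intro h
              obtain ⟨k, hk, hk2, hk3⟩ := h h1 h2
              exact ⟨k, ⟨hk, hk2⟩, hk3⟩
            · rintro ⟨k, ⟨hk, hk2⟩, hk3⟩ _ _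
              exact ⟨k, hk, hk2, hk3⟩
          rw [this]
          exact isOpen_biUnion fun k _ => (isOpen_C _ _).inter
            ((isOpen_C _ _).preimage (by fun_prop))
        · have : f ⟨⟨β, G⟩, N⟩ = univ := by
            ext y
            simp only [f, mem_ofPred_eq, mem_univ, iff_true]
            exact fun _ h => absurd h h2
          rw [this]
          exact isOpen_univ
      · have : f ⟨⟨β, G⟩, N⟩ = univ := by
          ext y
          simp only [f, mem_ofPred_eq, mem_univ, iff_true]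
          exact fun h => absurd h h1
        rw [this]
        exact isOpen_univ
    · rintro ⟨⟨β, G⟩, N⟩
      by_cases h1 : Good (c β)
      · by_cases h2 : (A z c β (G.map (Function.Embedding.subtype _)) g).Infinite
        · rw [dense_iff_inter_open]
          intro O hO ⟨y0, hy0⟩
          obtain ⟨ε, hε, hb⟩ := Metric.isOpen_iff.1 hO y0 hy0
          obtain ⟨p, hp1, hp2⟩ := exists_rat_btwn (show y0 - ε < y0 by linarith)
          obtain ⟨q, hq1, hq2⟩ := exists_rat_btwn (show y0 < y0 + ε by linarith)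
          obtain ⟨K, hK⟩ := h1 p q (by exact_mod_cast hp2.trans hq1)
          obtain ⟨k, hk, hkK⟩ := h2.exists_gt (max K N)
          obtain ⟨y, hy, hy1, hy2⟩ := hK k (le_of_lt ((le_max_left _ _).trans_lt hkK)) _ (hz α)
          refine ⟨y, hb ?_, fun _ _ => ⟨k, le_of_lt ((le_max_right _ _).trans_lt hkK), hk, hy1, hy2⟩⟩
          rw [Metric.mem_ball, Real.dist_eq, abs_lt]
          constructor
          · have := hy.1; linarith
          · have := hy.2; linarith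
        · have : f ⟨⟨β, G⟩, N⟩ = univ := by
            ext y
            simp only [f, mem_ofPred_eq, mem_univ, iff_true]
            exact fun _ h => absurd h h2
          rw [this]
          exact dense_univ
      · have : f ⟨⟨β, G⟩, N⟩ = univ := by
          ext y
          simp only [f, mem_ofPred_eq, mem_univ, iff_true]
          exact fun h => absurd h h1
        rw [this]
        exact dense_univ
  obtain ⟨y, hy⟩ := hd.nonempty
  refine ⟨y, fun β hβ G hG h1 h2 N => ?_⟩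
  have hmap : (G.subtype (fun γ => γ ∈ Iio α)).map (Function.Embedding.subtype _) = G := by
    rw [Finset.subtype_map_of_mem]
    exact fun γ hγ => hG γ hγ
  have := mem_iInter.1 hy ⟨⟨⟨β, hβ⟩, G.subtype (fun γ => γ ∈ Iio α)⟩, N⟩
  simp only [f, mem_ofPred_eq] at this
  rw [hmap] at this
  exact this h1 h2

/-- the transfinite sequence of generic points -/
lemma exists_x [WellFoundedLT W] (hc : ∀ x : W, (Iio x).Countable)
    (hz : ∀ a, z a ∈ Icc (0 : ℝ) 1) : ∃ x : W → ℝ, ∀ α, Q z c α x (x α) := by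
  classical
  let x : W → ℝ := (wellFounded_lt (α := W)).fix
    (fun α f => Classical.choose (exists_Q z c hc hz α (fun γ => if h : γ < α then f γ h else 0)))
  refine ⟨x, fun α => ?_⟩
  have hx : x α = Classical.choose
      (exists_Q z c hc hz α (fun γ => if h : γ < α then x γ else 0)) := by
    exact (wellFounded_lt (α := W)).fix_eq _ α
  have h := Classical.choose_spec
    (exists_Q z c hc hz α (fun γ => if h : γ < α then x γ else 0))
  rw [← hx] at h
  intro β hβ G hG h1 h2 N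
  have hA : A z c β G (fun γ => if h : γ < α then x γ else 0) = A z c β G x := by
    ext k
    simp only [A, mem_ofPred_eq]
    constructor
    · intro h γ hγ
      have := h γ hγ
      rwa [dif_pos (hG γ hγ)] at this
    · intro h γ hγ
      rw [dif_pos (hG γ hγ)]
      exact h γ hγ
  have := h β hβ G hG h1 (by rwa [hA]) N
  rwa [hA] at this

lemma infinite_A {x : W → ℝ} (hx : ∀ α, Q z c α x (x α)) (β : W) (hβ : Good (c β))
    (G : Finset W) (hG : ∀ γ ∈ G, β < γ) : (A z c β G x).Infinite := by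
  classical
  induction G using Finset.induction_on_max with
  | empty =>
    have : A z c β ∅ x = univ := by
      ext k; simp [A]
    rw [this]
    exact infinite_univ
  | insert a s hs ih =>
    have ih' := ih fun γ hγ => hG γ (Finset.mem_insert_of_mem hγ)
    rw [Set.infinite_iff_exists_gt]
    intro N
    obtain ⟨k, hk, hkA, h1, h2⟩ := hx a β (hG a (Finset.mem_insert_self _ _)) s hs hβ ih' (N + 1)
    refine ⟨k, ?_, by omega⟩
    intro γ hγ
    rcases Finset.mem_insert.1 hγ with rfl | hγ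
    · exact ⟨h1, h2⟩
    · exact hkA γ hγ

end Recursion

/-! ### Choosing sequences with disjoint supports -/

lemma exists_seq_fresh {α T : Type} [DecidableEq T] (supp : α → Finset T) (P : ℕ → α → Prop)
    (good : T → Prop)
    (h : ∀ (n : ℕ) (𝒬 : Finset T), (∀ U ∈ 𝒬, good U) →
      ∃ x, P n x ∧ (∀ U ∈ supp x, good U) ∧ Disjoint (supp x) 𝒬) :
    ∃ u : ℕ → α, (∀ n, P n (u n)) ∧ ∀ m n, m ≠ n → Disjoint (supp (u m)) (supp (u n)) := by
  classical
  let St := {𝒬 : Finset T // ∀ U ∈ 𝒬, good U}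
  let pick : ℕ → St → α := fun n σ => Classical.choose (h n σ.1 σ.2)
  have hpick : ∀ n (σ : St), P n (pick n σ) ∧ (∀ U ∈ supp (pick n σ), good U) ∧
      Disjoint (supp (pick n σ)) σ.1 := fun n σ => Classical.choose_spec (h n σ.1 σ.2)
  let st : ℕ → St := fun n => Nat.rec (⟨∅, by simp⟩ : St)
    (fun n σ => ⟨σ.1 ∪ supp (pick n σ), by
      intro U hU
      rcases Finset.mem_union.1 hU with hU | hU
      · exact σ.2 U hU
      · exact (hpick n σ).2.1 U hU⟩) n
  have hst : ∀ n, (st (n + 1)).1 = (st n).1 ∪ supp (pick n (st n)) := fun n => rfl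
  have hsub : ∀ m n, m < n → supp (pick m (st m)) ⊆ (st n).1 := by
    intro m n hmn
    induction n, hmn using Nat.le_induction with
    | base =>
      rw [hst]
      exact Finset.subset_union_right
    | succ n _ ih =>
      rw [hst]
      exact ih.trans Finset.subset_union_left
  refine ⟨fun n => pick n (st n), fun n => (hpick n _).1, ?_⟩
  have key : ∀ m n, m < n → Disjoint (supp (pick m (st m))) (supp (pick n (st n))) := by
    intro m n hmn
    exact ((hpick n (st n)).2.2.mono_right (hsub m n hmn)).symm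
  intro m n hmn
  rcases lt_or_gt_of_ne hmn with h1 | h1
  · exact key m n h1
  · exact (key n m h1).symm

/-- in an `ω`-cover, a finite set is contained in a member avoiding finitely many proper sets -/
lemma exists_fresh {X : Type} [TopologicalSpace X] {𝒰 : Set (Set X)} (h𝒰 : 𝒰 ∈ OmegaCovers X)
    (F : Set X) (hF : F.Finite) (𝒬 : Finset (Set X)) (h𝒬 : ∀ U ∈ 𝒬, U ≠ univ) :
    ∃ U ∈ 𝒰, F ⊆ U ∧ U ∉ 𝒬 := by
  classical
  have h1 : ∀ U : Set X, ∃ x : Set X, x.Finite ∧ (U ∈ 𝒬 → ¬ x ⊆ U) := by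
    intro U
    by_cases hU : U ∈ 𝒬
    · obtain ⟨x, hx⟩ := (ne_univ_iff_exists_notMem U).1 (h𝒬 U hU)
      exact ⟨{x}, finite_singleton x, fun _ h => hx (h (mem_singleton x))⟩
    · exact ⟨∅, finite_empty, fun h => absurd h hU⟩
  choose x hx1 hx2 using h1
  obtain ⟨U, hU, hFU⟩ := h𝒰.2.2 (F ∪ ⋃ V ∈ 𝒬, x V)
    (hF.union (𝒬.finite_toSet.biUnion fun V _ => hx1 V))
  refine ⟨U, hU, subset_union_left.trans hFU, fun h => hx2 U h ?_⟩
  refine Subset.trans ?_ (subset_union_right.trans hFU)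
  exact subset_biUnion_of_mem (u := fun V => x V) (show U ∈ (𝒬 : Set (Set X)) from h)

/-- a countable `ω`-cover is `ω`-groupable -/
lemma groupable_of_omega {X : Type} [TopologicalSpace X] (U : ℕ → Set X)
    (hcov : range U ∈ OpenCovers X) (hU : ∀ F : Set X, F.Finite → ∃ n, F ⊆ U n) :
    range U ∈ OmegaGroupable X := by
  classical
  refine ⟨hcov, fun n => {V | V = U n ∧ ∀ m < n, U m ≠ U n}, ?_, ?_, ?_, ?_⟩
  · intro n
    exact (finite_singleton (U n)).subset fun V hV => hV.1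
  · intro m n hmn
    rw [Set.disjoint_left]
    rintro V ⟨hV1, hV2⟩ ⟨hV3, hV4⟩
    rcases lt_or_gt_of_ne hmn with h | h
    · exact hV4 m h (hV1.symm.trans hV3)
    · exact hV2 n h (hV3.symm.trans hV1)
  · ext V
    simp only [mem_iUnion, mem_range]
    constructor
    · rintro ⟨n, hn, -⟩
      exact ⟨n, hn.symm⟩
    · rintro ⟨n, rfl⟩
      have hex : ∃ m, U m = U n := ⟨n, rfl⟩
      refine ⟨Nat.find hex, (Nat.find_spec hex).symm, fun m hm => ?_⟩
      rw [Nat.find_spec hex]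
      exact Nat.find_min hex hm
  · intro F hF
    obtain ⟨n, hn⟩ := hU F hF
    have hex : ∃ m, U m = U n := ⟨n, rfl⟩
    refine ⟨Nat.find hex, hn.trans ?_⟩
    apply subset_sUnion_of_mem
    refine ⟨(Nat.find_spec hex).symm, fun m hm => ?_⟩
    rw [Nat.find_spec hex]
    exact Nat.find_min hex hm

/-! ### The set of reals -/

section TheSet

variable {W : Type} (z : W → ℝ) (x : W → ℝ)

/-- the set of reals: the rationals, the points `x α` and the points `z α - x α` -/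
def XX : Set ℝ := range ((↑) : ℚ → ℝ) ∪ (range x ∪ range fun a => z a - x a)

lemma rat_mem (q : ℚ) : (q : ℝ) ∈ XX z x := Or.inl ⟨q, rfl⟩
lemma x_mem (a : W) : x a ∈ XX z x := Or.inr (Or.inl ⟨a, rfl⟩)
lemma y_mem (a : W) : z a - x a ∈ XX z x := Or.inr (Or.inr ⟨a, rfl⟩)

/-- `S₁(Ω,Ω)` fails, since every real in `[0,1]` is a sum of two points. -/
lemma not_S1_omega (hz : ∀ r ∈ Icc (0 : ℝ) 1, ∃ a, z a = r) :
    ¬ S1 (XX z x) (OmegaCovers (XX z x)) (OmegaCovers (XX z x)) := by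
  intro hS
  let ε : ℕ → ENNReal := fun n => 2⁻¹ ^ (n + 2)
  have hεsum : ∑' n, ε n < 1 := by
    have h1 : ∑' n, ε n = 2⁻¹ := by
      simp only [ε, pow_add]
      rw [ENNReal.tsum_mul_right, ENNReal.tsum_geometric, ENNReal.one_sub_inv_two, inv_inv, pow_two,
        ← mul_assoc, ENNReal.mul_inv_cancel (by norm_num) (by norm_num), one_mul]
    rw [h1]
    exact ENNReal.inv_lt_one.2 (by norm_num)
  have hεpos : ∀ n, ε n ≠ 0 := fun n => pow_ne_zero _ (by simp)
  let 𝒰 : ℕ → Set (Set (XX z x)) := fun n =>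
    {U | ∃ V : Set ℝ, IsOpen V ∧ U = Subtype.val ⁻¹' V ∧ volume (V + V) ≤ ε n}
  have hbig : ∀ V : Set ℝ, XX z x ⊆ V → Icc (0 : ℝ) 1 ⊆ V + V := by
    intro V hV r hr
    obtain ⟨a, rfl⟩ := hz r hr
    exact ⟨x a, hV (x_mem z x a), z a - x a, hV (y_mem z x a), by ring⟩
  have hfin : ∀ n, ∀ F : Set (XX z x), F.Finite → ∃ U ∈ 𝒰 n, F ⊆ U := by
    intro n F hF
    have hF' : (Subtype.val '' F : Set ℝ).Finite := hF.image _
    obtain ⟨G, hG⟩ := hF'.exists_finset_coe
    obtain ⟨δ, hδ, hδ2⟩ : ∃ δ : ℝ, 0 < δ ∧ ((G ×ˢ G).card : ENNReal) * ENNReal.ofReal (4 * δ) ≤ ε n := by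
      have hεt : ε n ≠ ⊤ := by
        simp only [ε]
        exact ENNReal.pow_ne_top (by simp)
      have hpos : 0 < (ε n).toReal := ENNReal.toReal_pos (hεpos n) hεt
      refine ⟨(ε n).toReal / (4 * ((G ×ˢ G).card + 1)), by positivity, ?_⟩
      have hc : (((G ×ˢ G).card : ENNReal)) = ENNReal.ofReal ((G ×ˢ G).card : ℝ) := by
        simp
      rw [hc, ← ENNReal.ofReal_mul (by positivity)]
      apply ENNReal.ofReal_le_of_le_toReal
      have h4 : (0 : ℝ) < ((G ×ˢ G).card : ℝ) + 1 := by positivity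
      rw [show ((G ×ˢ G).card : ℝ) * (4 * ((ε n).toReal / (4 * (((G ×ˢ G).card : ℝ) + 1)))) =
        (ε n).toReal * ((((G ×ˢ G).card : ℝ)) / (((G ×ˢ G).card : ℝ) + 1)) by field_simp]
      apply mul_le_of_le_one_right hpos.le
      rw [div_le_one h4]
      linarith
    let V : Set ℝ := ⋃ g ∈ G, Metric.ball g δ
    refine ⟨Subtype.val ⁻¹' V, ⟨V, isOpen_biUnion fun _ _ => Metric.isOpen_ball, rfl, ?_⟩, ?_⟩
    · have hsub : V + V ⊆ ⋃ g ∈ G ×ˢ G, Metric.ball (g.1 + g.2) (2 * δ) := by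
        rintro _ ⟨u, hu, v, hv, rfl⟩
        simp only [V, mem_iUnion, exists_prop] at hu hv
        obtain ⟨g, hg, hu⟩ := hu
        obtain ⟨h, hh, hv⟩ := hv
        simp only [mem_iUnion, exists_prop]
        refine ⟨(g, h), Finset.mem_product.2 ⟨hg, hh⟩, ?_⟩
        rw [Metric.mem_ball, Real.dist_eq] at hu hv ⊢
        calc |u + v - (g + h)| = |(u - g) + (v - h)| := by ring_nf
          _ ≤ |u - g| + |v - h| := abs_add_le _ _
          _ < 2 * δ := by linarith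
      calc volume (V + V) ≤ volume (⋃ g ∈ G ×ˢ G, Metric.ball (g.1 + g.2) (2 * δ)) :=
            measure_mono hsub
        _ ≤ ∑ g ∈ G ×ˢ G, volume (Metric.ball (g.1 + g.2) (2 * δ)) :=
            measure_biUnion_finset_le _ _
        _ = ((G ×ˢ G).card : ENNReal) * ENNReal.ofReal (4 * δ) := by
            simp only [Real.volume_ball, Finset.sum_const, nsmul_eq_mul]
            ring_nf
        _ ≤ ε n := hδ2
    · intro r hr
      have : (r : ℝ) ∈ G := by
        have h1 : (r : ℝ) ∈ (Subtype.val '' F : Set ℝ) := ⟨r, hr, rfl⟩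
        rw [← hG] at h1
        exact h1
      simp only [V, mem_preimage, mem_iUnion, exists_prop]
      exact ⟨r, this, Metric.mem_ball_self hδ⟩
  have hlt1 : ∀ n, ε n < 1 := fun n => (ENNReal.le_tsum n).trans_lt hεsum
  have hmem : ∀ n, 𝒰 n ∈ OmegaCovers (XX z x) := by
    intro n
    refine ⟨⟨?_, ?_⟩, ?_, hfin n⟩
    · rintro _ ⟨V, hV, rfl, -⟩
      exact hV.preimage continuous_subtype_val
    · rw [eq_univ_iff_forall]
      intro r
      obtain ⟨U, hU, hr⟩ := hfin n {r} (finite_singleton r)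
      exact ⟨U, hU, hr rfl⟩
    · rintro ⟨V, -, hV, hvol⟩
      have h1 : XX z x ⊆ V := by
        intro r hr
        have : (⟨r, hr⟩ : XX z x) ∈ (univ : Set (XX z x)) := mem_univ _
        rw [hV] at this
        exact this
      have h2 : (1 : ENNReal) ≤ ε n := by
        calc (1 : ENNReal) = volume (Icc (0 : ℝ) 1) := by simp
          _ ≤ volume (V + V) := measure_mono (hbig V h1)
          _ ≤ ε n := hvol
      exact absurd (hlt1 n) (not_lt.2 h2)
  obtain ⟨U, hU, hUΩ⟩ := hS 𝒰 hmem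
  choose V hVo hV hVvol using hU
  have hcov : Icc (0 : ℝ) 1 ⊆ ⋃ n, (V n + V n) := by
    intro r hr
    obtain ⟨a, rfl⟩ := hz r hr
    obtain ⟨_, ⟨n, rfl⟩, hn⟩ := hUΩ.2.2 {⟨x a, x_mem z x a⟩, ⟨z a - x a, y_mem z x a⟩}
      ((finite_singleton _).insert _)
    have h1 : (⟨x a, x_mem z x a⟩ : XX z x) ∈ U n := hn (by simp)
    have h2 : (⟨z a - x a, y_mem z x a⟩ : XX z x) ∈ U n := hn (by simp)
    rw [hV n] at h1 h2
    exact mem_iUnion.2 ⟨n, ⟨x a, h1, z a - x a, h2, by ring⟩⟩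
  have : (1 : ENNReal) < 1 := by
    calc (1 : ENNReal) = volume (Icc (0 : ℝ) 1) := by simp
      _ ≤ volume (⋃ n, (V n + V n)) := measure_mono hcov
      _ ≤ ∑' n, volume (V n + V n) := measure_iUnion_le _
      _ ≤ ∑' n, ε n := ENNReal.tsum_le_tsum hVvol
      _ < 1 := hεsum
  exact lt_irrefl _ this

lemma exists_T (O : Set ℝ) (hO : IsOpen O) (hne : O.Nonempty) :
    ∃ T : Finset ℚ, ∀ ζ ∈ Icc (0 : ℝ) 1, ∃ w ∈ T, ζ - (w : ℝ) ∈ O := by
  have hcov : Icc (0 : ℝ) 1 ⊆ ⋃ w : ℚ, (fun ζ : ℝ => ζ - (w : ℝ)) ⁻¹' O := by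
    intro ζ _
    obtain ⟨y, hy⟩ := hne
    have hopen : IsOpen ((fun w : ℝ => ζ - w) ⁻¹' O) := hO.preimage (by fun_prop)
    obtain ⟨w, hw⟩ := Rat.denseRange_cast (𝕜 := ℝ) |>.exists_mem_open hopen
      ⟨ζ - y, by simpa using hy⟩
    exact mem_iUnion.2 ⟨w, hw⟩
  obtain ⟨T, hT⟩ := isCompact_Icc.elim_finite_subcover _
    (fun w : ℚ => hO.preimage (by fun_prop)) hcov
  refine ⟨T, fun ζ hζ => ?_⟩
  have := hT hζ
  simp only [mem_iUnion, exists_prop] at this
  exact this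

/-- merging three sequences -/
def mix {T : Type} (a b v : ℕ → T) (n : ℕ) : T :=
  if n % 3 = 0 then a (n / 3) else if n % 3 = 1 then b (n / 3) else v (n / 3)

lemma mix0 {T : Type} (a b v : ℕ → T) (k : ℕ) : mix a b v (3 * k) = a k := by
  have h1 : (3 * k) % 3 = 0 := by omega
  have h2 : (3 * k) / 3 = k := by omega
  simp only [mix, h1, h2, if_true]

lemma mix1 {T : Type} (a b v : ℕ → T) (k : ℕ) : mix a b v (3 * k + 1) = b k := by
  have h1 : (3 * k + 1) % 3 = 1 := by omega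
  have h2 : (3 * k + 1) / 3 = k := by omega
  simp only [mix, h1, h2, if_true, one_ne_zero, if_false]

lemma mix2 {T : Type} (a b v : ℕ → T) (k : ℕ) : mix a b v (3 * k + 2) = v k := by
  have h1 : (3 * k + 2) % 3 = 2 := by omega
  have h2 : (3 * k + 2) / 3 = k := by omega
  simp only [mix, h1, h2]
  norm_num

lemma mix_mem {T : Type} {a b v : ℕ → T} {𝒰 : ℕ → Set T} (ha : ∀ k, a k ∈ 𝒰 (3 * k))
    (hb : ∀ k, b k ∈ 𝒰 (3 * k + 1)) (hv : ∀ k, v k ∈ 𝒰 (3 * k + 2)) (n : ℕ) :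
    mix a b v n ∈ 𝒰 n := by
  obtain ⟨k, hk⟩ : ∃ k, n = 3 * k ∨ n = 3 * k + 1 ∨ n = 3 * k + 2 := ⟨n / 3, by omega⟩
  rcases hk with rfl | rfl | rfl
  · rw [mix0]; exact ha k
  · rw [mix1]; exact hb k
  · rw [mix2]; exact hv k

/-- the positive property of the set -/
lemma S1_groupable [LinearOrder W] (c : W → Set (ℕ × ℚ × ℚ))
    (hc : ∀ a : W, (Iio a).Countable) (hcs : Function.Surjective c)
    (hx : ∀ α, Q z c α x (x α)) :
    S1 (XX z x) (OmegaCovers (XX z x)) (OmegaGroupable (XX z x)) := by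
  classical
  intro 𝒰 h𝒰
  obtain ⟨e, he⟩ := exists_surjective_nat (ℚ × ℚ)
  -- the first two parts of each block
  have hstep : ∀ (n : ℕ) (𝒬 : Finset (Set (XX z x))), (∀ U ∈ 𝒬, U ≠ univ) →
      ∃ p : Set (XX z x) × Set (XX z x), (p.1 ∈ 𝒰 (3 * n) ∧ p.2 ∈ 𝒰 (3 * n + 1) ∧
        ∃ A B : Set ℝ, IsOpen A ∧ IsOpen B ∧ Subtype.val ⁻¹' A = p.1 ∧ Subtype.val ⁻¹' B = p.2 ∧
        ∀ j ≤ n, (e j).1 < (e j).2 → ∀ ζ ∈ Icc (0 : ℝ) 1,
          ∃ y ∈ Ioo ((e j).1 : ℝ) (e j).2, y ∈ A ∧ ζ - y ∈ B) ∧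
      (∀ U ∈ ({p.1, p.2} : Finset (Set (XX z x))), U ≠ univ) ∧
      Disjoint ({p.1, p.2} : Finset (Set (XX z x))) 𝒬 := by
    intro n 𝒬 h𝒬
    let r : ℕ → ℚ := fun j => ((e j).1 + (e j).2) / 2
    obtain ⟨a, ha, hEa, ha𝒬⟩ := exists_fresh (h𝒰 (3 * n))
      ((fun j => (⟨(r j : ℝ), rat_mem z x (r j)⟩ : XX z x)) '' {j | j ≤ n})
      ((finite_le_nat n).image _) 𝒬 h𝒬
    obtain ⟨A, hA, hAa⟩ := isOpen_induced_iff.1 ((h𝒰 (3 * n)).1.1 a ha)
    have hT : ∀ j, ∃ T : Finset ℚ, j ≤ n → (e j).1 < (e j).2 → ∀ ζ ∈ Icc (0 : ℝ) 1,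
        ∃ w ∈ T, ζ - (w : ℝ) ∈ A ∩ Ioo ((e j).1 : ℝ) (e j).2 := by
      intro j
      by_cases hj : j ≤ n ∧ (e j).1 < (e j).2
      · obtain ⟨T, hT⟩ := exists_T (A ∩ Ioo ((e j).1 : ℝ) (e j).2) (hA.inter isOpen_Ioo) (by
          refine ⟨(r j : ℝ), ?_, ?_⟩
          · have h1 : (⟨(r j : ℝ), rat_mem z x (r j)⟩ : XX z x) ∈ a := hEa ⟨j, hj.1, rfl⟩
            rw [← hAa] at h1
            exact h1
          · have h2 : ((e j).1 : ℝ) < (e j).2 := by exact_mod_cast hj.2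
            simp only [r]
            push_cast
            constructor <;> linarith)
        exact ⟨T, fun _ _ => hT⟩
      · exact ⟨∅, fun h1 h2 => absurd ⟨h1, h2⟩ hj⟩
    choose T hT using hT
    obtain ⟨b, hb, hEb, hb𝒬⟩ := exists_fresh (h𝒰 (3 * n + 1))
      (⋃ j ∈ {j | j ≤ n}, (fun w : ℚ => (⟨(w : ℝ), rat_mem z x w⟩ : XX z x)) '' (T j : Set ℚ))
      ((finite_le_nat n).biUnion fun j _ => (T j).finite_toSet.image _) 𝒬 h𝒬
    obtain ⟨B, hB, hBb⟩ := isOpen_induced_iff.1 ((h𝒰 (3 * n + 1)).1.1 b hb)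
    refine ⟨(a, b), ⟨ha, hb, A, B, hA, hB, hAa, hBb, ?_⟩, ?_, ?_⟩
    · intro j hj hlt ζ hζ
      obtain ⟨w, hw, hwA⟩ := hT j hj hlt ζ hζ
      refine ⟨ζ - w, hwA.2, hwA.1, ?_⟩
      have h1 : (⟨(w : ℝ), rat_mem z x w⟩ : XX z x) ∈ b := by
        apply hEb
        simp only [mem_iUnion]
        exact ⟨j, hj, w, hw, rfl⟩
      rw [← hBb] at h1
      have h2 : (w : ℝ) ∈ B := h1
      rwa [sub_sub_cancel]
    · intro U hU
      simp only [Finset.mem_insert, Finset.mem_singleton] at hU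
      rcases hU with rfl | rfl
      · rintro h; exact (h𝒰 (3 * n)).2.1 (h ▸ ha)
      · rintro h; exact (h𝒰 (3 * n + 1)).2.1 (h ▸ hb)
    · rw [Finset.disjoint_left]
      intro U hU
      simp only [Finset.mem_insert, Finset.mem_singleton] at hU
      rcases hU with rfl | rfl
      · exact ha𝒬
      · exact hb𝒬
  obtain ⟨u, hu, hdisj⟩ := exists_seq_fresh
    (fun p : Set (XX z x) × Set (XX z x) => ({p.1, p.2} : Finset (Set (XX z x)))) _
    (fun U => U ≠ univ) hstep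
  choose hu1 hu2 A B hA hB hAu hBu hAB using hu
  -- the code of the sequence `A k ∪ B k`
  obtain ⟨c0, hc0⟩ := exists_code (fun k => A k ∪ B k) (fun k => (hA k).union (hB k))
  obtain ⟨β, hβ⟩ := hcs c0
  have hgood : Good (c β) := by
    intro p q hpq
    obtain ⟨j, hj⟩ := he (p, q)
    refine ⟨j, fun k hk ζ hζ => ?_⟩
    obtain ⟨y, hy, hyA, hyB⟩ := hAB k j hk (by rw [hj]; exact hpq) ζ hζ
    rw [hj] at hy
    rw [hβ, hc0]
    exact ⟨y, hy, Or.inl hyA, Or.inr hyB⟩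
  -- the countable part
  let D : Set (XX z x) := {w | (w : ℝ) ∈ range ((↑) : ℚ → ℝ) ∪
    (x '' Iic β ∪ (fun a => z a - x a) '' Iic β)}
  have hIic : (Iic β).Countable := by
    rw [← Iio_insert]
    exact (hc β).insert β
  have hD : D.Countable := by
    have : (range ((↑) : ℚ → ℝ) ∪ (x '' Iic β ∪ (fun a => z a - x a) '' Iic β)).Countable :=
      (countable_range _).union ((hIic.image _).union (hIic.image _))
    exact this.preimage Subtype.val_injective
  have hDne : D.Nonempty := ⟨⟨((0 : ℚ) : ℝ), rat_mem z x 0⟩, Or.inl ⟨0, rfl⟩⟩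
  obtain ⟨d, hd⟩ := hD.exists_eq_range hDne
  -- finite sets
  have hsplit : ∀ F : Set (XX z x), F.Finite →
      {k | ∀ w ∈ F, w ∉ D → w ∈ (u k).1 ∪ (u k).2}.Infinite := by
    intro F hF
    have hγ : ∀ w : XX z x, ∃ γ : W, w ∉ D → β < γ ∧ ((w : ℝ) = x γ ∨ (w : ℝ) = z γ - x γ) := by
      intro w
      by_cases hw : w ∈ D
      · exact ⟨β, fun h => absurd hw h⟩
      · rcases w.2 with h | ⟨γ, h⟩ | ⟨γ, h⟩
        · exact absurd (Or.inl h) hw
        · refine ⟨γ, fun _ => ⟨?_, Or.inl h.symm⟩⟩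
          by_contra hlt
          exact hw (Or.inr (Or.inl ⟨γ, not_lt.1 hlt, h⟩))
        · refine ⟨γ, fun _ => ⟨?_, Or.inr h.symm⟩⟩
          by_contra hlt
          exact hw (Or.inr (Or.inr ⟨γ, not_lt.1 hlt, h⟩))
    choose γ hγ using hγ
    let G : Finset W := (hF.toFinset.filter (fun w => w ∉ D)).image γ
    have hG : ∀ g ∈ G, β < g := by
      intro g hg
      simp only [G, Finset.mem_image, Finset.mem_filter] at hg
      obtain ⟨w, ⟨-, hw⟩, rfl⟩ := hg
      exact (hγ w hw).1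
    refine (infinite_A z c hx β hgood G hG).mono ?_
    intro k hk w hwF hwD
    have hmem : γ w ∈ G := by
      simp only [G, Finset.mem_image, Finset.mem_filter]
      exact ⟨w, ⟨hF.mem_toFinset.2 hwF, hwD⟩, rfl⟩
    have h1 := hk (γ w) hmem
    rw [hβ, hc0] at h1
    have h2 : (w : ℝ) ∈ A k ∪ B k := by
      rcases (hγ w hwD).2 with h | h
      · rw [h]; exact h1.1
      · rw [h]; exact h1.2
    rcases h2 with h2 | h2
    · left
      rw [← hAu k]
      exact h2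
    · right
      rw [← hBu k]
      exact h2
  have hne : ∀ k, ∃ U, U ∈ 𝒰 (3 * k + 2) := fun k => by
    obtain ⟨U, hU, -⟩ := (h𝒰 (3 * k + 2)).2.2 ∅ finite_empty
    exact ⟨U, hU⟩
  by_cases hcase : ∀ F : Set (XX z x), F.Finite → ∃ k, F ⊆ (u k).1 ∨ F ⊆ (u k).2
  · -- the chosen sets already form an `ω`-cover
    choose v hv using hne
    have hmem := mix_mem (a := fun k => (u k).1) (b := fun k => (u k).2) hu1 hu2 hv
    have hom : ∀ F : Set (XX z x), F.Finite →
        ∃ n, F ⊆ mix (fun k => (u k).1) (fun k => (u k).2) v n := by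
      intro F hF
      obtain ⟨k, hk | hk⟩ := hcase F hF
      · exact ⟨3 * k, by rw [mix0]; exact hk⟩
      · exact ⟨3 * k + 1, by rw [mix1]; exact hk⟩
    refine ⟨_, hmem, groupable_of_omega _ ⟨?_, ?_⟩ hom⟩
    · rintro _ ⟨n, rfl⟩
      exact (h𝒰 n).1.1 _ (hmem n)
    · rw [eq_univ_iff_forall]
      intro w
      obtain ⟨n, hn⟩ := hom {w} (finite_singleton w)
      exact ⟨_, ⟨n, rfl⟩, hn rfl⟩
  · push Not at hcase
    obtain ⟨E0, hE0, hE0u⟩ := hcase
    -- the third part of each block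
    have hstep2 : ∀ (n : ℕ) (𝒬 : Finset (Set (XX z x))), (∀ U ∈ 𝒬, U ≠ univ) →
        ∃ v : Set (XX z x), (v ∈ 𝒰 (3 * n + 2) ∧ E0 ⊆ v ∧ d '' {j | j ≤ n} ⊆ v) ∧
        (∀ U ∈ ({v} : Finset (Set (XX z x))), U ≠ univ) ∧
        Disjoint ({v} : Finset (Set (XX z x))) 𝒬 := by
      intro n 𝒬 h𝒬
      obtain ⟨v, hv, hEv, hv𝒬⟩ := exists_fresh (h𝒰 (3 * n + 2)) (E0 ∪ d '' {j | j ≤ n})
        (hE0.union ((finite_le_nat n).image _)) 𝒬 h𝒬
      refine ⟨v, ⟨hv, subset_union_left.trans hEv, subset_union_right.trans hEv⟩, ?_, ?_⟩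
      · intro U hU
        rw [Finset.mem_singleton] at hU
        rw [hU]
        intro h
        exact (h𝒰 (3 * n + 2)).2.1 (h ▸ hv)
      · rw [Finset.disjoint_singleton_left]
        exact hv𝒬
    obtain ⟨v, hv, hvdisj⟩ := exists_seq_fresh
      (fun v : Set (XX z x) => ({v} : Finset (Set (XX z x)))) _ (fun U => U ≠ univ) hstep2
    have hmem := mix_mem (a := fun k => (u k).1) (b := fun k => (u k).2) hu1 hu2
      (fun k => (hv k).1)
    let 𝓕 : ℕ → Set (Set (XX z x)) := fun k => {(u k).1, (u k).2, v k}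
    have hunion : ⋃ k, 𝓕 k = range (mix (fun k => (u k).1) (fun k => (u k).2) v) := by
      ext U
      simp only [𝓕, mem_iUnion, mem_insert_iff, mem_singleton_iff, mem_range]
      constructor
      · rintro ⟨k, rfl | rfl | rfl⟩
        · exact ⟨3 * k, mix0 _ _ _ k⟩
        · exact ⟨3 * k + 1, mix1 _ _ _ k⟩
        · exact ⟨3 * k + 2, mix2 _ _ _ k⟩
      · rintro ⟨n, rfl⟩
        obtain ⟨k, hk⟩ : ∃ k, n = 3 * k ∨ n = 3 * k + 1 ∨ n = 3 * k + 2 := ⟨n / 3, by omega⟩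
        refine ⟨k, ?_⟩
        rcases hk with rfl | rfl | rfl
        · left; exact mix0 _ _ _ k
        · right; left; exact mix1 _ _ _ k
        · right; right; exact mix2 _ _ _ k
    have hom : ∀ F : Set (XX z x), F.Finite → ∃ k, F ⊆ ⋃₀ 𝓕 k := by
      intro F hF
      have hj : ∀ w : XX z x, ∃ j, w ∈ D → d j = w := by
        intro w
        by_cases hw : w ∈ D
        · have := hw
          rw [hd] at this
          obtain ⟨j, hj⟩ := this
          exact ⟨j, fun _ => hj⟩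
        · exact ⟨0, fun h => absurd h hw⟩
      choose j hj using hj
      obtain ⟨k, hk, hlt⟩ := (hsplit F hF).exists_gt (hF.toFinset.sup j)
      refine ⟨k, fun w hw => ?_⟩
      by_cases hwD : w ∈ D
      · refine ⟨v k, by simp [𝓕], (hv k).2.2 ⟨j w, ?_, hj w hwD⟩⟩
        have : j w ≤ hF.toFinset.sup j := Finset.le_sup (hF.mem_toFinset.2 hw)
        exact this.trans hlt.le
      · rcases hk w hw hwD with h | h
        · exact ⟨(u k).1, by simp [𝓕], h⟩
        · exact ⟨(u k).2, by simp [𝓕], h⟩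
    refine ⟨_, hmem, ⟨⟨?_, ?_⟩, 𝓕, ?_, ?_, hunion, hom⟩⟩
    · rintro _ ⟨n, rfl⟩
      exact (h𝒰 n).1.1 _ (hmem n)
    · rw [eq_univ_iff_forall]
      intro w
      obtain ⟨k, hk⟩ := hom {w} (finite_singleton w)
      obtain ⟨U, hU, hwU⟩ := hk rfl
      refine ⟨U, ?_, hwU⟩
      rw [← hunion]
      exact mem_iUnion.2 ⟨k, hU⟩
    · intro k
      simp only [𝓕]
      exact ((finite_singleton _).insert _).insert _
    · intro m n hmn
      have h1 := hdisj m n hmn
      have h2 := hvdisj m n hmn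
      rw [Finset.disjoint_left] at h1
      simp only [Finset.mem_insert, Finset.mem_singleton, not_or] at h1
      have h2' : v m ≠ v n := by
        simpa using h2
      rw [Set.disjoint_left]
      simp only [𝓕, mem_insert_iff, mem_singleton_iff, not_or]
      have hE : ∀ i k, v i ≠ (u k).1 ∧ v i ≠ (u k).2 := by
        intro i k
        constructor
        · intro h
          exact (hE0u k).1 (h ▸ (hv i).2.1)
        · intro h
          exact (hE0u k).2 (h ▸ (hv i).2.1)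
      rintro U (rfl | rfl | rfl)
      · refine ⟨(h1 (Or.inl rfl)).1, (h1 (Or.inl rfl)).2, (hE n m).1.symm⟩
      · refine ⟨(h1 (Or.inr rfl)).1, (h1 (Or.inr rfl)).2, (hE n m).2.symm⟩
      · exact ⟨(hE m n).1, (hE m n).2, h2'⟩

end TheSet

/-- **Theorem.** Assume the continuum hypothesis. Then there is a set of reals which satisfies
`S₁(Ω, 𝒪^{ωgp})` but not `S₁(Ω, Ω)`. -/
theorem result (hCH : (ℵ₁ : Cardinal.{0}) = 𝔠) :
    ∃ X : Set ℝ, S1 X (OmegaCovers X) (OmegaGroupable X) ∧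
      ¬ S1 X (OmegaCovers X) (OmegaCovers X) := by
  obtain ⟨W, _, _, z, c, hc, hz, hz', hcs⟩ := exists_index hCH
  obtain ⟨x, hx⟩ := exists_x z c hc hz
  exact ⟨XX z x, S1_groupable z x c hc hcs hx, not_S1_omega z x hz'⟩

end Pool.Agent.Results.MP_82c070_gt.OmegaGroupableCH
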